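import Mathlib

/-! ONE CORNER, abstract form. A class of objects with finitely many Lipschitz functions of the window (the numbers of the
prefixes), closed under zooms (difference quotients at a window) and under limits of sequences, has a member for which all
these functions are linear. -/

set_option autoImplicit false

namespace Pool.Agent.Helper22.OC

open Filter Topology Set

noncomputable section

/-- finitely many functions which are Lipschitz on an interval have a common point of differentiability -/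
theorem exists_diff {ι : Type} [Finite ι] (A : ι → ℝ → ℝ) {W b0 b1 : ℝ} (h : b0 < b1)
    (hA : ∀ j, ∀ x ∈ Icc b0 b1, ∀ y ∈ Icc b0 b1, x ≤ y → |A j y - A j x| ≤ W * (y - x)) :
    ∃ c, b0 < c ∧ c < b1 ∧ ∀ j, DifferentiableAt ℝ (A j) c := by
  have h1 : ∀ j, ∀ᵐ x ∂(MeasureTheory.volume.restrict (Icc b0 b1)), DifferentiableWithinAt ℝ (A j) (Icc b0 b1) x := by
    intro j
    have hL : LipschitzOnWith (Real.toNNReal W) (A j) (Icc b0 b1) := by
      apply LipschitzOnWith.of_dist_le_mul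
      have key : ∀ x ∈ Icc b0 b1, ∀ y ∈ Icc b0 b1, x ≤ y → dist (A j x) (A j y) ≤ (Real.toNNReal W : ℝ) * dist x y := by
        intro x hx y hy hxy
        rw [Real.dist_eq, Real.dist_eq, abs_sub_comm, abs_sub_comm x y, abs_of_nonneg (sub_nonneg.mpr hxy)]
        exact (hA j x hx y hy hxy).trans (mul_le_mul_of_nonneg_right (Real.le_coe_toNNReal W) (sub_nonneg.mpr hxy))
      intro x hx y hy
      rcases le_total x y with hxy | hxy
      · exact key x hx y hy hxy
      · rw [dist_comm, dist_comm x y]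
        exact key y hy x hx hxy
    exact hL.ae_differentiableWithinAt_real measurableSet_Icc
  have h2 : ∀ᵐ x ∂(MeasureTheory.volume.restrict (Icc b0 b1)), ∀ j, DifferentiableWithinAt ℝ (A j) (Icc b0 b1) x := by
    have := Finite.to_countable (α := ι)
    exact MeasureTheory.ae_all_iff.mpr h1
  have h3 : ∀ᵐ x ∂(MeasureTheory.volume.restrict (Ioo b0 b1)), ∀ j, DifferentiableWithinAt ℝ (A j) (Icc b0 b1) x :=
    MeasureTheory.ae_restrict_of_ae_restrict_of_subset Ioo_subset_Icc_self h2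
  have h4 : (MeasureTheory.volume.restrict (Ioo b0 b1)) ≠ 0 := by
    intro h5
    rw [MeasureTheory.Measure.restrict_eq_zero, Real.volume_Ioo, ENNReal.ofReal_eq_zero] at h5
    linarith
  have h6 : ∀ᵐ x ∂(MeasureTheory.volume.restrict (Ioo b0 b1)), x ∈ Ioo b0 b1 :=
    MeasureTheory.ae_restrict_mem measurableSet_Ioo
  haveI : (MeasureTheory.ae (MeasureTheory.volume.restrict (Ioo b0 b1))).NeBot := MeasureTheory.ae_neBot.mpr h4
  obtain ⟨c, hc, hm⟩ := (h3.and h6).exists
  exact ⟨c, hm.1, hm.2, fun j => (hc j).differentiableAt (Icc_mem_nhds hm.1 hm.2)⟩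

/-- difference quotients with small steps -/
theorem tendsto_quot {f : ℝ → ℝ} {c : ℝ} (hf : DifferentiableAt ℝ f c) (b : ℝ) {e : ℕ → ℝ} (he : ∀ k, 0 < e k)
    (h0 : Tendsto e atTop (𝓝 0)) : Tendsto (fun k => (f (c + e k * b) - f c) / e k) atTop (𝓝 (deriv f c * b)) := by
  have h1 : HasDerivAt (fun t : ℝ => c + t * b) b 0 := by
    have h2 := ((hasDerivAt_id (0 : ℝ)).mul_const b).const_add c
    rwa [one_mul] at h2
  have h2 : HasDerivAt (fun t : ℝ => f (c + t * b)) (deriv f c * b) 0 := by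
    have h3 : HasDerivAt f (deriv f c) ((fun t : ℝ => c + t * b) 0) := by
      have h4 : (fun t : ℝ => c + t * b) 0 = c := by
        show c + 0 * b = c
        rw [zero_mul, add_zero]
      rw [h4]
      exact hf.hasDerivAt
    exact h3.comp 0 h1
  rw [hasDerivAt_iff_tendsto_slope_zero] at h2
  have h3 : Tendsto e atTop (𝓝[≠] 0) :=
    tendsto_nhdsWithin_iff.mpr ⟨h0, Eventually.of_forall fun k => (he k).ne'⟩
  refine (h2.comp h3).congr fun k => ?_
  show (e k)⁻¹ • (f (c + (0 + e k) * b) - f (c + 0 * b)) = _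
  rw [zero_add, zero_mul, add_zero, smul_eq_mul, div_eq_inv_mul]

/-- a function with small increments `W h` at all points of a half open interval, uniformly on compact subintervals, is
Lipschitz -/
theorem lip_of_steps {f : ℝ → ℝ} {W b0 b1 : ℝ} (hst : ∀ c1, c1 < b1 → ∃ δ : ℝ, 0 < δ ∧ ∀ c h, b0 ≤ c → c ≤ c1 → 0 ≤ h →
    h ≤ δ → c + h ≤ c1 → f (c + h) - f c ≤ W * h) {c c' : ℝ} (h0 : b0 ≤ c) (h1 : c ≤ c') (h2 : c' < b1) :
    f c' - f c ≤ W * (c' - c) := by
  obtain ⟨δ, hδ, hs⟩ := hst c' h2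
  obtain ⟨n, hn⟩ := exists_nat_gt ((c' - c) / δ)
  have hn0 : (0 : ℝ) < n + 1 := by positivity
  set h : ℝ := (c' - c) / (n + 1) with hh
  have hh0 : 0 ≤ h := div_nonneg (sub_nonneg.mpr h1) hn0.le
  have hhδ : h ≤ δ := by
    rw [hh, div_le_iff₀ hn0]
    rw [div_lt_iff₀ hδ] at hn
    nlinarith
  have hend : c + (n + 1) * h = c' := by
    rw [hh, mul_div_cancel₀ _ hn0.ne']
    ring
  have key : ∀ m : ℕ, m ≤ n + 1 → f (c + m * h) - f c ≤ W * (m * h) := by
    intro m
    induction m with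
    | zero =>
      intro _
      simp
    | succ m ih =>
      intro hm
      have i1 := ih (by omega)
      have i2 : (m : ℝ) + 1 ≤ n + 1 := by exact_mod_cast hm
      have i3 : c + ((m : ℝ) + 1) * h ≤ c' := by
        rw [← hend]
        have := mul_le_mul_of_nonneg_right i2 hh0
        linarith
      have i4 : 0 ≤ (m : ℝ) * h := mul_nonneg (Nat.cast_nonneg m) hh0
      have i5 := hs (c + m * h) h (by linarith) (by linarith) hh0 hhδ (by linarith)
      have e1 : c + ((m + 1 : ℕ) : ℝ) * h = c + m * h + h := by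
        push_cast
        ring
      have e2 : W * (((m + 1 : ℕ) : ℝ) * h) = W * (m * h) + W * h := by
        push_cast
        ring
      rw [e1, e2]
      linarith
  have k1 := key (n + 1) le_rfl
  have e1 : c + ((n + 1 : ℕ) : ℝ) * h = c' := by
    push_cast
    exact hend
  have e2 : ((n + 1 : ℕ) : ℝ) * h = c' - c := by linarith
  rw [e1, e2] at k1
  exact k1

/-- ONE CORNER -/
theorem one_corner {X : Type*} {n : ℕ} (L : X → Prop) (A : X → Fin n → ℝ → ℝ) {W b0 : ℝ} (hb : 0 < b0)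
    (hne : ∃ x, L x)
    (hlip : ∀ x, L x → ∀ j c c', 0 < c → c ≤ c' → c' < b0 → |A x j c' - A x j c| ≤ W * (c' - c))
    (hzoom : ∀ x, L x → ∀ c, 0 < c → c < b0 → ∀ᶠ e in 𝓝[>] (0 : ℝ), ∃ z, L z ∧ ∀ j b, 0 ≤ b → b < b0 →
      A z j b = (A x j (c + e * b) - A x j c) / e)
    (hlim : ∀ m : ℕ → X, (∀ k, L (m k)) → ∀ α : Fin n → ℝ → ℝ, (∀ j b, 0 ≤ b → b < b0 →
      Tendsto (fun k => A (m k) j b) atTop (𝓝 (α j b))) → ∃ T, L T ∧ ∀ j b, 0 ≤ b → b < b0 → A T j b = α j b) :
    ∃ (T : X) (a : Fin n → ℝ), L T ∧ ∀ j b, 0 ≤ b → b < b0 → A T j b = a j * b := by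
  obtain ⟨x, hx⟩ := hne
  obtain ⟨c, hc0, hc1, hd⟩ := exists_diff (A x) (W := W) (b0 := b0 / 3) (b1 := b0 / 2) (by linarith) (by
    intro j y hy z hz hyz
    exact hlip x hx j y z (by linarith [hy.1]) hyz (by linarith [hz.2]))
  have h1 : ∀ᶠ k : ℕ in atTop, ∃ z, L z ∧ ∀ j b, 0 ≤ b → b < b0 →
      A z j b = (A x j (c + (1 / ((k : ℝ) + 1)) * b) - A x j c) / (1 / ((k : ℝ) + 1)) := by
    have h2 := hzoom x hx c (by linarith) (by linarith)
    have h3 : Tendsto (fun k : ℕ => 1 / ((k : ℝ) + 1)) atTop (𝓝[>] 0) :=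
      tendsto_nhdsWithin_iff.mpr ⟨tendsto_one_div_add_atTop_nhds_zero_nat, Eventually.of_forall fun k => by
        show (0 : ℝ) < 1 / ((k : ℝ) + 1)
        positivity⟩
    exact h3.eventually h2
  obtain ⟨k0, hk0⟩ := eventually_atTop.mp h1
  choose z hz hA using fun k : ℕ => hk0 (k + k0) (by omega)
  obtain ⟨T, hT, hA'⟩ := hlim z hz (fun j b => deriv (A x j) c * b) (by
    intro j b hb0 hb1
    have h2 : Tendsto (fun k : ℕ => 1 / (((k + k0 : ℕ) : ℝ) + 1)) atTop (𝓝 0) :=
      (tendsto_add_atTop_iff_nat (f := fun k : ℕ => 1 / ((k : ℝ) + 1)) k0).mpr tendsto_one_div_add_atTop_nhds_zero_nat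
    refine (tendsto_quot (hd j) b (fun k => by positivity) h2).congr fun k => ?_
    exact (hA k j b hb0 hb1).symm)
  exact ⟨T, fun j => deriv (A x j) c, hT, hA'⟩

end

end Pool.Agent.Helper22.OC
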