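import Pool.Agent.Helper94.SEL.Tpg
import Pool.Agent.Helper84.KR.Sel

/-! CORNER (row `CORN` of `Helper94/SEL/St`): zooms with units tending to zero at a point of differentiability. -/

set_option autoImplicit false

namespace Pool.Agent.Helper22.OC

open Finset Filter Topology Matrix Pool.Agent.Helper69.RK Pool.Agent.Helper31.EC Pool.Agent.Helper31.EC.Sp
open Pool.Agent.Helper40.EL Pool.Agent.Helper89.LX Pool.Agent.Helper84.MT
open Pool.Agent.Helper49.MD Pool.Agent.Helper36.AM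
open Pool.Agent.Helper47.FN (KR lftR obR lftR_ob)
open Pool.Agent.Helper29.MX
open Pool.Agent.Helper77.TPX (oth)
open Pool.Agent.Helper94.SEL

noncomputable section

/-! ### real analysis -/

/-- the difference quotient at a point of differentiability -/
theorem quot_der {f : ℝ → ℝ} {w c : ℝ} (h : HasDerivAt f w c) {ε : ℝ} (hε : 0 < ε) :
    ∀ᶠ η in 𝓝[>] (0 : ℝ), ∀ t, 0 ≤ t → t ≤ η → |f (c + t) - f c - w * t| ≤ ε * t := by
  have h1 := (hasDerivAt_iff_isLittleO_nhds_zero.mp h).def hε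
  rw [Metric.eventually_nhds_iff] at h1
  obtain ⟨δ, hδ, h2⟩ := h1
  have h3 : Set.Ioo (0 : ℝ) δ ∈ 𝓝[>] (0 : ℝ) := Ioo_mem_nhdsGT hδ
  filter_upwards [h3] with η hη t h0 h1
  have h4 := h2 (y := t) (by
    rw [Real.dist_eq, sub_zero, abs_of_nonneg h0]
    exact lt_of_le_of_lt h1 hη.2)
  rw [Real.norm_eq_abs, Real.norm_eq_abs, abs_of_nonneg h0, smul_eq_mul, mul_comm t w] at h4
  exact h4

/-- truncation at a cap does not increase distances -/
theorem abs_min_le (x y l : ℝ) : |min x l - min y l| ≤ |x - y| := by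
  rcases le_total x y with h | h
  · rw [abs_of_nonpos (sub_nonpos.2 (min_le_min_right l h)), abs_of_nonpos (sub_nonpos.2 h)]
    rcases le_total y l with h1 | h1
    · rw [min_eq_left h1, min_eq_left (h.trans h1)]
    · rw [min_eq_right h1]
      rcases le_total x l with h2 | h2
      · rw [min_eq_left h2]
        linarith
      · rw [min_eq_right h2]
        linarith
  · rw [abs_of_nonneg (sub_nonneg.2 (min_le_min_right l h)), abs_of_nonneg (sub_nonneg.2 h)]
    rcases le_total x l with h1 | h1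
    · rw [min_eq_left h1, min_eq_left (h.trans h1)]
    · rw [min_eq_right h1]
      rcases le_total y l with h2 | h2
      · rw [min_eq_left h2]
        linarith
      · rw [min_eq_right h2]
        linarith

theorem min_sub_le {x y l d : ℝ} (h : x - y ≤ d) (hd : 0 ≤ d) : min x l - min y l ≤ d := by
  rcases le_total x y with h1 | h1
  · have := min_le_min_right l h1
    linarith
  · have h2 := abs_min_le x y l
    have h3 := le_abs_self (min x l - min y l)
    rw [abs_of_nonneg (sub_nonneg.2 h1)] at h2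
    linarith

/-! ### numbers -/

section num
variable {S : Sp} {N M : ℕ} {E : ℕ → ℕ} {ι : Type} [Finite ι]

theorem num_An (s : MSys S N E ι) (R : Rsl S) {j : ℕ} (hj : j ≤ N) (c : ℝ) :
    num s R hj c = Pool.Agent.Helper84.KR.An s R j c := by
  rw [Pool.Agent.Helper84.KR.An_of s R hj]
  rfl

theorem tot_An (s : MSys S N E ι) (R : Rsl S) (c : ℝ) : tot s R c = Pool.Agent.Helper84.KR.An s R N c := by
  rw [Pool.Agent.Helper84.KR.An_top]
  rfl

theorem tot_mono (s : MSys S N E ι) (R : Rsl S) : Monotone (tot s R) := fun a b h => by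
  rw [tot_An, tot_An]
  exact Pool.Agent.Helper84.KR.An_mono s R N h

theorem num_top (s : MSys S N E ι) (R : Rsl S) (c : ℝ) : num s R le_rfl c = tot s R c := by
  rw [num_An, tot_An]

/-- the exponent of the last row is at least `c` -/
theorem last_ge {s : MSys S (M + 1) E ι} {R : Rsl S} (hP : Pt s R) {c : ℝ} (h0 : 0 ≤ c) (h1 : c ≤ 1) :
    num s R M.le_succ c + c ≤ tot s R c := by
  rw [num_An, tot_An]
  exact Pool.Agent.Helper84.KR.An_step (s := s) (R := R) hP le_rfl h0 h1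

end num

/-! ### the zooms -/

section corn
variable {M : ℕ} {gb : ℕ → ℕ → ℝ → ℕ}

theorem par_ld (P : Par) : P.l ≤ P.d := le_mul_of_one_le_left P.l0.le P.La1

theorem par_d0 (P : Par) : 0 < P.d := P.l0.trans_le (par_ld P)

theorem par_Ld (P : Par) : P.La * P.d < 1 := P.lLa

theorem par_d1 (P : Par) : P.d < 1 := (le_mul_of_one_le_left (par_d0 P).le P.La1).trans_lt (par_Ld P)

theorem par_Ll (P : Par) : P.La * P.l < 1 := par_d1 P

theorem par_l1 (P : Par) : P.l < 1 := (par_ld P).trans_lt (par_d1 P)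

/-- ZOOMS WITH ERROR `δ` at a point of differentiability -/
theorem corn_zoom (hZ : ZOOMX M gb) {A : MCl (M + 1)} {C : ℕ → MCl (M + 1)} {v : ℕ} (hc : Ctx M A C v)
    {m g r e0 : ℕ} {b0 La : ℝ} {P : Par} {S : Sp} {s : MSys S (M + 1) (lin g) (Fin r)} {R : Rsl S}
    (hb : BK (C m) v g r e0 b0 S s R) {c w : ℝ} {α : ℕ → ℝ} {I : Set ℕ} (hc0 : 0 < c) (hcb : c < b0)
    (hG : ∃ e : ℝ, 0 < e ∧ TopG s R c e) (h2 : tot s R c < La * c) (ht : TopZ P.ρ P.d s R c)
    (hd : HasDerivAt (fun c => tot s R c) w c) (hw : w ≤ P.La)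
    (hα : ∀ j ∈ I, ∀ hj : j ≤ M + 1, HasDerivAt (fun c => num s R hj c) (α j) c) {δ : ℝ} (hδ : 0 < δ) :
    ∃ (S' : Sp) (κ : ℕ) (t : MSys S' (M + 1) (lin κ) (Fin r)) (R' : Rsl S'), κ = gb r e0 La ∧
      KE (C m) v κ r e0 P δ S' t R' ∧ ∀ b : ℝ, 0 ≤ b → b < P.l → |tot t R' b - w * b| ≤ δ ∧
        ∀ j ∈ I, ∀ hj : j ≤ M + 1, |num t R' hj b - α j * b| ≤ δ := by
  have hl1 := par_l1 P
  have hLa := P.La1
  -- the error
  obtain ⟨ε, hε, hεδ, hεL⟩ : ∃ ε : ℝ, 0 < ε ∧ ε ≤ δ ∧ P.La * P.l + ε < 1 := by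
    have h3 : 0 < 1 - P.La * P.l := by linarith [par_Ll P]
    refine ⟨min δ ((1 - P.La * P.l) / 2), lt_min hδ (by linarith), min_le_left _ _, ?_⟩
    have h4 : min δ ((1 - P.La * P.l) / 2) ≤ (1 - P.La * P.l) / 2 := min_le_right _ _
    linarith
  obtain ⟨e1, he10, hTop⟩ := ht δ hδ
  -- the unit
  have hnum : ∀ᶠ η in 𝓝[>] (0 : ℝ), ∀ j : Fin (M + 2), (j : ℕ) ∈ I → ∀ t, 0 ≤ t → t ≤ η →
      |num s R (Nat.le_of_lt_succ j.2) (c + t) - num s R (Nat.le_of_lt_succ j.2) c - α j * t| ≤ ε / 2 * t := by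
    rw [eventually_all]
    intro j
    by_cases hj : (j : ℕ) ∈ I
    · exact (quot_der (hα j hj (Nat.le_of_lt_succ j.2)) (half_pos hε)).mono fun η hη _ => hη
    · exact Eventually.of_forall fun η h => absurd h hj
  have hlme : ∀ᶠ η in 𝓝[>] (0 : ℝ), TopG s R c η := by
    obtain ⟨e2, he2, hG2⟩ := hG
    have h3 : Set.Ioo (0 : ℝ) e2 ∈ 𝓝[>] (0 : ℝ) := Ioo_mem_nhdsGT he2
    filter_upwards [h3] with η hη
    exact hG2.anti hη.2.le
  have hpos : ∀ᶠ η in 𝓝[>] (0 : ℝ), η ∈ Set.Ioo (0 : ℝ) (min (b0 - c) (min (La * c - tot s R c) e1)) :=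
    Ioo_mem_nhdsGT (lt_min (by linarith) (lt_min (by linarith) he10))
  obtain ⟨e, ⟨he1, he2⟩, he3, he4⟩ := ((quot_der hd (half_pos hε)).and (hnum.and (hpos.and hlme))).exists.imp
    fun e h => (⟨⟨h.1, h.2.1⟩, h.2.2.1, h.2.2.2⟩ : (_ ∧ _) ∧ _ ∧ _)
  have he0 : 0 < e := he3.1
  have heb : c + e < b0 := by
    have := he3.2.trans_le (min_le_left _ _)
    linarith
  have heL : tot s R c + e ≤ La * c := by
    have := (he3.2.trans_le ((min_le_right _ _).trans (min_le_left _ _))).le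
    linarith
  have hee : e < e1 := he3.2.trans_le ((min_le_right _ _).trans (min_le_right _ _))
  -- the quotients
  have hq : ∀ b : ℝ, 0 ≤ b → b < P.l → |(tot s R (c + e * b) - tot s R c) / e - w * b| ≤ ε / 2 := by
    intro b hb0 hb1
    have h3 : e * b ≤ e := by nlinarith
    have h4 := he1 (e * b) (mul_nonneg he0.le hb0) h3
    have h5 : (tot s R (c + e * b) - tot s R c) / e - w * b =
        (tot s R (c + e * b) - tot s R c - w * (e * b)) / e := by
      field_simp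
    rw [h5, abs_div, abs_of_pos he0, div_le_iff₀ he0]
    exact h4.trans (mul_le_mul_of_nonneg_left h3 (by linarith))
  have hqn : ∀ j ∈ I, ∀ hj : j ≤ M + 1, ∀ b : ℝ, 0 ≤ b → b < P.l →
      |(num s R hj (c + e * b) - num s R hj c) / e - α j * b| ≤ ε / 2 := by
    intro j hjI hj b hb0 hb1
    have h3 : e * b ≤ e := by nlinarith
    have h4 := he2 ⟨j, Nat.lt_succ_of_le hj⟩ hjI (e * b) (mul_nonneg he0.le hb0) h3
    have h5 : (num s R hj (c + e * b) - num s R hj c) / e - α j * b =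
        (num s R hj (c + e * b) - num s R hj c - α j * (e * b)) / e := by
      field_simp
    rw [h5, abs_div, abs_of_pos he0, div_le_iff₀ he0]
    exact h4.trans (mul_le_mul_of_nonneg_left h3 (by linarith))
  obtain ⟨D1, hZ1⟩ := hZ A C v hc m g r e0 La
  obtain ⟨z, W, hz1, hz2, hz3, hz4, -, hz5, hz6, hz7, hz8⟩ := hZ1 b0 S s R hb c e P.l hc0 he0 P.l0
    hl1.le heL he4 (fun b hb0 hb1 => by
      have h3 := hq b hb0 hb1
      rw [abs_le] at h3
      refine ⟨by nlinarith, ?_⟩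
      have h4 : w * b ≤ P.La * P.l := by
        have h5 : w * b ≤ P.La * b := mul_le_mul_of_nonneg_right hw hb0
        have h6 : P.La * b ≤ P.La * P.l := mul_le_mul_of_nonneg_left hb1.le (by linarith)
        linarith
      have h5 : (tot s R (c + e * b) - tot s R c) / e < 1 := by linarith [h3.2]
      rw [div_lt_iff₀ he0, one_mul] at h5
      linarith)
  have hz9 : ∀ b : ℝ, 0 ≤ b → b < P.l → tot z.sys (rover z.Z.l z.Z.u z.Z.hu R) b =
      (tot s R (c + e * b) - tot s R c) / e := by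
    intro b hb0 hb1
    have h3 := hz8 b hb0 hb1 (M + 1) le_rfl
    rw [num_top s, num_top s] at h3
    exact (num_top z.sys (rover z.Z.l z.Z.u z.Z.hu R) b).symm.trans h3
  refine ⟨z.Z.sp, z.κ, z.sys, rover z.Z.l z.Z.u z.Z.hu R, hz4, ⟨hz7, ?_, ?_⟩, fun b hb0 hb1 => ⟨?_, fun j hjI hj => ?_⟩⟩
  · -- Lipschitz
    intro b b' hb0 hbb hb1
    rw [hz9 b hb0 (hbb.trans_lt hb1), hz9 b' (hb0.trans hbb) hb1]
    have h3 := hq b hb0 (hbb.trans_lt hb1)
    have h4 := hq b' (hb0.trans hbb) hb1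
    rw [abs_le] at h3 h4
    have h5 : w * (b' - b) ≤ P.La * (b' - b) := mul_le_mul_of_nonneg_right hw (by linarith)
    have h6 : w * (b' - b) = w * b' - w * b := by ring
    linarith [h3.1, h4.2]
  · -- TOP
    exact hTop z ⟨W, hz1⟩ hz7.cl.2.1 hz2 (by rw [hz3]; exact hee) hz5 hz6
  · -- total
    rw [hz9 b hb0 hb1]
    exact (hq b hb0 hb1).trans (by linarith)
  · -- prefixes
    rw [hz8 b hb0 hb1 j hj]
    exact (hqn j hjI hj b hb0 hb1).trans (by linarith)

/-- **THE CORNER** -/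
theorem corn (hZ : ZOOMX M gb) (hL : LIMX M) : CORN M gb := by
  intro A C v hc m g r e0 b0 La P S s R hb c w α I hc0 hcb _ hG h2 ht hd hw hα
  have h3 : ∀ i : ℕ, ∃ (S' : Sp) (t : MSys S' (M + 1) (lin (gb r e0 La)) (Fin r)) (R' : Rsl S'),
      KE (C m) v (gb r e0 La) r e0 P (1 / ((i : ℝ) + 1)) S' t R' ∧ ∀ b : ℝ, 0 ≤ b → b < P.l →
        |tot t R' b - w * b| ≤ 1 / ((i : ℝ) + 1) ∧
        ∀ j ∈ I, ∀ hj : j ≤ M + 1, |num t R' hj b - α j * b| ≤ 1 / ((i : ℝ) + 1) := by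
    intro i
    obtain ⟨S', κ, t, R', rfl, h4, h5⟩ := corn_zoom hZ hc hb hc0 hcb hG h2 ht hd hw hα
      (show (0 : ℝ) < 1 / ((i : ℝ) + 1) by positivity)
    exact ⟨S', t, R', h4, h5⟩
  choose S' t R' h4 h5 using h3
  obtain ⟨E, hE, h6⟩ := hL A C v hc m (gb r e0 La) r e0 P (fun i => 1 / ((i : ℝ) + 1)) (fun i => by positivity)
    tendsto_one_div_add_atTop_nhds_zero_nat (fun b => w * b) (fun j b => α j * b) I S' (fun i => obR (t i) (R' i))
    (fun i => lftR_ob ⟨h4 i, h5 i⟩)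
  obtain ⟨J, hJ⟩ := exists_slo S' E hE
  obtain ⟨t0, R0, -, -, h7, h8⟩ := h6 J hJ
  exact ⟨_, t0, R0, h7, h8⟩

end corn

end

end Pool.Agent.Helper22.OC
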