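import Pool.Agent.Helper52.GF.Mxc
import Pool.Agent.Helper84.KR.Sel
import Mathlib.Analysis.Calculus.Monotone

/-! ONE CORNER, the point: in a class of pairs `(s, R)` which is closed under diagonals and events there is a robust
subclass in which the numbers `α j b = j - vol` of all prefixes are constants, nondecreasing in the window; they have a
common point of differentiability in every interval. -/

set_option autoImplicit false

namespace Pool.Agent.Helper22.OC

open Finset Filter Topology Matrix Pool.Agent.Helper69.RK Pool.Agent.Helper31.EC Pool.Agent.Helper31.EC.Sp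
open Pool.Agent.Helper40.EL Pool.Agent.Helper89.LX Pool.Agent.Helper84.MT
open Pool.Agent.Helper49.MD Pool.Agent.Helper36.AM
open Pool.Agent.Helper47.FN (KR lftR obR)
open Pool.Agent.Helper87.NSL (cndR KnS)
open Pool.Agent.Helper29.MX
open Pool.Agent.Helper52.GF

noncomputable section

/-! ### real analysis -/

/-- finitely many monotone functions have a common point of differentiability -/
theorem exists_diff_mono {κ : Type} [Finite κ] {f : κ → ℝ → ℝ} (hf : ∀ j, Monotone (f j)) {a b : ℝ} (hab : a < b) :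
    ∃ c, a < c ∧ c < b ∧ ∃ d : κ → ℝ, ∀ j, HasDerivAt (f j) (d j) c := by
  have h1 : ∀ᵐ x : ℝ, ∀ j, DifferentiableAt ℝ (f j) x := by
    rw [MeasureTheory.ae_all_iff]
    exact fun j => (hf j).ae_differentiableAt
  have h2 : (0 : ENNReal) < MeasureTheory.volume (Set.Ioo a b) := by
    rw [Real.volume_Ioo, ENNReal.ofReal_pos]
    linarith
  have h3 : ∃ c ∈ Set.Ioo a b, ∀ j, DifferentiableAt ℝ (f j) c := by
    by_contra hcon
    push Not at hcon
    have h4 : Set.Ioo a b ⊆ {x | ¬ ∀ j, DifferentiableAt ℝ (f j) x} := fun x hx => by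
      obtain ⟨j, hj⟩ := hcon x hx
      exact fun h => hj (h j)
    have h5 : MeasureTheory.volume (Set.Ioo a b) ≤ 0 := (MeasureTheory.measure_mono h4).trans (le_of_eq h1)
    exact absurd h2 (not_lt.2 h5)
  obtain ⟨c, hc, hd⟩ := h3
  exact ⟨c, hc.1, hc.2, fun j => deriv (f j) c, fun j => (hd j).hasDerivAt⟩

/-! ### the numbers of the prefixes -/

variable {S T : Sp} {M : ℕ} {E : ℕ → ℕ} {ι : Type}

/-- the exponents of the prefixes are `α j b` at all windows `0 ≤ b < b0` -/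
def NumP (b0 : ℝ) (α : ℕ → ℝ → ℝ) (s : MSys S M E ι) (R : Rsl S) : Prop :=
  ∀ (j : ℕ) (hj : j ≤ M) (b : ℝ), 0 ≤ b → b < b0 → volP s R b hj = j - α j b

theorem NumP.congr {b0 : ℝ} {α β : ℕ → ℝ → ℝ} {s : MSys S M E ι} {R : Rsl S} (h : NumP b0 α s R)
    (hab : ∀ j, j ≤ M → ∀ b, 0 ≤ b → b < b0 → β j b = α j b) : NumP b0 β s R := fun j hj b h0 h1 => by
  rw [h j hj b h0 h1, hab j hj b h0 h1]

theorem NumP.mono {b0 b1 : ℝ} (hb : b1 ≤ b0) {α : ℕ → ℝ → ℝ} {s : MSys S M E ι} {R : Rsl S} (h : NumP b0 α s R) :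
    NumP b1 α s R := fun j hj b h0 h1 => h j hj b h0 (h1.trans_le hb)

theorem volP_An (s : MSys S M E ι) (R : Rsl S) (b : ℝ) {j : ℕ} (hj : j ≤ M) :
    volP s R b hj = j - Pool.Agent.Helper84.KR.An s R j b := by
  rw [Pool.Agent.Helper84.KR.An_of s R hj, sub_sub_cancel]
  rfl

theorem numP_iff {b0 : ℝ} {α : ℕ → ℝ → ℝ} {s : MSys S M E ι} {R : Rsl S} :
    NumP b0 α s R ↔ ∀ j, j ≤ M → ∀ b, 0 ≤ b → b < b0 → Pool.Agent.Helper84.KR.An s R j b = α j b := by
  constructor
  · intro h j hj b h0 h1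
    have h2 := h j hj b h0 h1
    rw [volP_An] at h2
    linarith
  · intro h j hj b h0 h1
    rw [volP_An, h j hj b h0 h1]

section lin
variable {b0 : ℝ} {a : ℕ → ℝ} {s : MSys S M E ι} {R : Rsl S} (h0 : 0 < b0) (h : NumP b0 (fun j b => a j * b) s R)

include h0 h

/-- linear numbers start with zero -/
theorem NumP.lin_zero : a 0 = 0 := by
  have h1 := numP_iff.mp h 0 (Nat.zero_le M) (b0 / 2) (by linarith) (by linarith)
  rw [Pool.Agent.Helper84.KR.An_zero] at h1
  have h2 : a 0 * (b0 / 2) = 0 := h1.symm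
  rcases mul_eq_zero.1 h2 with h3 | h3
  · exact h3
  · linarith

/-- all steps of linear numbers are at least one -/
theorem NumP.lin_step [Finite ι] (hP : Pt s R) {j : ℕ} (hj : j < M) : a j + 1 ≤ a (j + 1) := by
  set b := min (b0 / 2) 1 with hb
  have hb0 : 0 < b := lt_min (by linarith) one_pos
  have hb1 : b ≤ 1 := min_le_right _ _
  have hb2 : b < b0 := (min_le_left _ _).trans_lt (by linarith)
  have h1 := numP_iff.mp h j hj.le b hb0.le hb2
  have h2 := numP_iff.mp h (j + 1) hj b hb0.le hb2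
  have h3 := Pool.Agent.Helper84.KR.An_step (s := s) (R := R) hP (Nat.succ_le_of_lt hj) hb0.le hb1
  rw [h1, h2] at h3
  have h4 : (a j + 1) * b ≤ a (j + 1) * b := by linarith
  exact le_of_mul_le_mul_right h4 hb0

/-- linear numbers are at least the number of coordinates -/
theorem NumP.lin_ge [Finite ι] (hP : Pt s R) {j j' : ℕ} (hjj : j ≤ j') (hj : j' ≤ M) : a j + (j' - j : ℕ) ≤ a j' := by
  induction j', hjj using Nat.le_induction with
  | base => simp
  | succ m hm ih =>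
    have h1 := ih (Nat.le_of_succ_le hj)
    have h2 := NumP.lin_step h0 h hP (Nat.lt_of_succ_le hj)
    have h3 : ((m + 1 - j : ℕ) : ℝ) = ((m - j : ℕ) : ℝ) + 1 := by
      rw [Nat.sub_add_comm hm]
      push_cast
      ring
    rw [h3]
    linarith

end lin

/-! ### robust classes -/

section rob
variable [Finite ι] [Encodable ι] {C : (KR M ι).Pd} {V W : ℕ → Pu (KR M ι)} {c : KD M}

/-- the constants of the prefixes -/
def al (c : KD M) (n : ℕ) (j : ℕ) (b : ℝ) : ℝ :=
  if h : j ≤ M then (j : ℝ) - ⨅ D : ℕ, c.v ⟨j, Fin.castLE h⟩ D n b else 0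

theorem al_of (c : KD M) (n : ℕ) {j : ℕ} (h : j ≤ M) (b : ℝ) :
    al c n j b = (j : ℝ) - ⨅ D : ℕ, c.v ⟨j, Fin.castLE h⟩ D n b := dif_pos h

variable (hJ : RbJ E (prR M ι) V W C c) {n : ℕ} (hV : V n = puR M ι) (hW : W n = puR M ι)

include hJ hV hW

/-- the numbers of all members of a robust class, all windows -/
theorem volP_of_mem {x : (KR M ι).Ob S} (hx : C S x) {s : MSys S M E ι} {R : Rsl S} (hs : Giv s ((prR M ι).o x))
    (hR : ∀ᶠ k in UF, R k = (x k : FMs (S.F k).Ω M ι × Setoid (S.F k).Ω).2) {j : ℕ} (hj : j ≤ M) (b : ℝ) :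
    volP s R b hj = j - al c n j b := by
  have h1 : ∀ᶠ k in UF, (puR M ι).pt x k = fc (R k) := hR.mono fun k hk => by
    rw [hk]
    rfl
  rw [al_of c n hj, sub_sub_cancel]
  exact mx_volP hJ hx hs (by rw [hV]; exact h1) (by rw [hW]; exact h1) hj b

theorem numE_of_mem (hI : ImCl C) {x : (KR M ι).Ob S} (hx : C S x) {s : MSys S M E ι} {R : Rsl S}
    (hs : Giv s ((prR M ι).o x)) (hR : ∀ᶠ k in UF, R k = (x k : FMs (S.F k).Ω M ι × Setoid (S.F k).Ω).2) (b0 : ℝ) :
    AllE (fun _ t R' => NumP b0 (al c n) t R') S s R := by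
  intro T p A hA j hj b _ _
  exact volP_of_mem hJ hV hW (hI S x hx T p A hA) (giv_imo hs p A hA) (hR.mono fun k hk => hk) hj b

theorem al_An {x : (KR M ι).Ob S} (hx : C S x) {s : MSys S M E ι} {R : Rsl S} (hs : Giv s ((prR M ι).o x))
    (hR : ∀ᶠ k in UF, R k = (x k : FMs (S.F k).Ω M ι × Setoid (S.F k).Ω).2) {j : ℕ} (hj : j ≤ M) (b : ℝ) :
    Pool.Agent.Helper84.KR.An s R j b = al c n j b := by
  have h1 := volP_of_mem hJ hV hW hx hs hR hj b
  rw [volP_An] at h1
  linarith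

/-- the constants are nondecreasing in the window -/
theorem al_mono (hne : ∃ S x, C S x) {TT : ∀ S : Sp, MSys S M E ι → Rsl S → Prop}
    (hTT : ∀ S x, C S x → lftR TT S x) (j : ℕ) : Monotone (al c n j) := by
  obtain ⟨S, x, hx⟩ := hne
  obtain ⟨s, R, h1, h2, -⟩ := hTT S x hx
  intro b b' hbb
  by_cases hj : j ≤ M
  · rw [← al_An hJ hV hW hx h1 h2 hj, ← al_An hJ hV hW hx h1 h2 hj]
    exact Pool.Agent.Helper84.KR.An_mono s R j hbb
  · unfold al
    rw [dif_neg hj, dif_neg hj]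

/-- THE POINT OF THE ONE CORNER: all exponents of prefixes are differentiable -/
theorem corner_point (hne : ∃ S x, C S x) {TT : ∀ S : Sp, MSys S M E ι → Rsl S → Prop}
    (hTT : ∀ S x, C S x → lftR TT S x) {b1 b2 : ℝ} (hb : b1 < b2) :
    ∃ x, b1 < x ∧ x < b2 ∧ ∃ a : ℕ → ℝ, ∀ j, HasDerivAt (al c n j) (a j) x := by
  obtain ⟨x, h1, h2, d, hd⟩ := exists_diff_mono (κ := Fin (M + 1)) (f := fun j => al c n j)
    (fun j => al_mono hJ hV hW hne hTT j) hb
  refine ⟨x, h1, h2, fun j => if h : j < M + 1 then d ⟨j, h⟩ else 0, fun j => ?_⟩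
  by_cases h : j < M + 1
  · show HasDerivAt (al c n j) (if h : j < M + 1 then d ⟨j, h⟩ else 0) x
    rw [dif_pos h]
    exact hd ⟨j, h⟩
  · show HasDerivAt (al c n j) (if h : j < M + 1 then d ⟨j, h⟩ else 0) x
    rw [dif_neg h]
    have h3 : al c n j = fun _ => 0 := by
      funext b
      unfold al
      rw [dif_neg (by omega)]
    rw [h3]
    exact hasDerivAt_const x 0

end rob

/-! ### one corner -/

/-- ONE CORNER. `TT` is a class of pairs, legal (closed under diagonals and events, not empty); `hcorn` is the corner: for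
a legal subclass with constant exponents `α j` of the prefixes, at a point `x` where all of them are differentiable, there
is a member of `TT` with the exponents `a j b = (α j)' (x) b` at all windows `b < b0`. -/
theorem one_corner_pairs [Finite ι] [Encodable ι] {TT : ∀ S : Sp, MSys S M E ι → Rsl S → Prop} (hT : Cls (lftR TT))
    (hpt : ∀ S s R, TT S s R → Pt s R) {b0 b1 b2 : ℝ} (h0 : 0 < b0) (hb : b1 < b2)
    (hcorn : ∀ C : (KR M ι).Pd, Cls C → (∀ S x, C S x → lftR TT S x) → ∀ α : ℕ → ℝ → ℝ, (∀ j, Monotone (α j)) →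
      (∀ S x, C S x → ∀ (s : MSys S M E ι) (R : Rsl S), Giv s ((prR M ι).o x) →
        (∀ᶠ k in UF, R k = (x k : FMs (S.F k).Ω M ι × Setoid (S.F k).Ω).2) →
          ∀ b : ℝ, AllE (fun _ t R' => NumP b α t R') S s R) →
      ∀ (x : ℝ) (a : ℕ → ℝ), b1 < x → x < b2 → (∀ j, HasDerivAt (α j) (a j) x) →
        ∃ (T : Sp) (t : MSys T M E ι) (R' : Rsl T), TT T t R' ∧
          AllE (fun _ t R' => NumP b0 (fun j b => a j * b) t R') T t R') :
    ∃ (a : ℕ → ℝ) (T : Sp) (t : MSys T M E ι) (R' : Rsl T), TT T t R' ∧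
      AllE (fun _ t R' => NumP b0 (fun j b => a j * b) t R') T t R' ∧ a 0 = 0 ∧ ∀ j, j < M → a j + 1 ≤ a (j + 1) := by
  obtain ⟨C, hC, hCT, ⟨c, hJ⟩, -⟩ := stage_j (E := E) (m := prR M ι) hT (fun S x hx => lftR_isK hx)
    (fun _ => puR M ι) (fun _ => puR M ι) (kuR M ι) (fun _ => 1) (fun _ => one_pos)
    (fun _ => isK_trn one_pos le_rfl)
  obtain ⟨x, hx1, hx2, a, ha⟩ := corner_point hJ (n := 0) rfl rfl hC.ne hCT hb
  obtain ⟨T, t, R', h1, h2⟩ := hcorn C hC hCT (al c 0) (fun j => al_mono hJ rfl rfl hC.ne hCT j)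
    (fun S x hx s R hs hR b => numE_of_mem hJ rfl rfl hC.im hx hs hR b) x a hx1 hx2 ha
  have hG : 0 < ul (T.pr fun _ _ => True) := by
    have e1 : ul (T.pr fun _ _ => True) = 1 := ul_eq ((Typ_iff _).mp Typ_true)
    rw [e1]
    exact one_pos
  have h3 := h2 T (Pj.id T) (fun _ _ => True) hG
  have h4 : Pt (t.im (Pj.id T) (fun _ _ => True) hG) R' := by
    have h5 := hpt T t R' h1
    filter_upwards [h5] with k hk ω ω' a b c d
    exact hk ω ω' (FSp.im_supp ((Pj.id T).fp k) (fun _ => True) ω a)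
      (FSp.im_supp ((Pj.id T).fp k) (fun _ => True) ω' b) c d
  exact ⟨a, T, t, R', h1, h2, NumP.lin_zero h0 h3, fun j hj => NumP.lin_step h0 h3 h4 hj⟩

end

end Pool.Agent.Helper22.OC
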