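import Pool.Agent.Helper22.OC.Corn
import Pool.Agent.Helper22.OC.Pts

/-! ONE CORNER (row `ONEC` of `Helper94/SEL/St`): from the corner, in a class with linear total exponent all exponents of
prefixes become linear. -/

set_option autoImplicit false

namespace Pool.Agent.Helper22.OC

open Finset Filter Topology Matrix Pool.Agent.Helper69.RK Pool.Agent.Helper31.EC Pool.Agent.Helper31.EC.Sp
open Pool.Agent.Helper40.EL Pool.Agent.Helper89.LX Pool.Agent.Helper84.MT
open Pool.Agent.Helper49.MD Pool.Agent.Helper36.AM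
open Pool.Agent.Helper29.MX
open Pool.Agent.Helper94.SEL

noncomputable section

variable {M : ℕ} {gb : ℕ → ℕ → ℝ → ℕ}

/-- speeds of a member with linear numbers -/
theorem spd_of {S : Sp} {E : ℕ → ℕ} {ι : Type} [Finite ι] {s : MSys S (M + 1) E ι} {R : Rsl S} (hP : Pt s R)
    {a : ℕ → ℝ} {W l : ℝ} (hl : 0 < l)
    (h : ∀ b : ℝ, 0 ≤ b → b < l → tot s R b = W * b ∧ ∀ (j : ℕ) (hj : j ≤ M + 1), num s R hj b = a j * b) :
    Spd M a W := by
  have hN : NumP l (fun j b => a j * b) s R := numP_iff.mpr fun j hj b h0 h1 => by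
    rw [← num_An s R hj]
    exact (h b h0 h1).2 j hj
  refine ⟨NumP.lin_zero hl hN, fun j hj => NumP.lin_step hl hN hP (Nat.lt_succ_of_le hj), ?_⟩
  obtain ⟨h1, h2⟩ := h (l / 2) (by linarith) (by linarith)
  have h3 := h2 (M + 1) le_rfl
  rw [num_top, h1] at h3
  have h4 : 0 < l / 2 := by linarith
  exact (mul_right_cancel₀ h4.ne' h3).symm

/-- **ONE CORNER** -/
theorem onec (hC : CORN M gb) (hT : TOPZ M) (hG : TGR M) : ONEC M gb := by
  intro A C v hc m r e0 P W h1 h2 hm
  obtain ⟨S, s, R, hk, hW⟩ := hm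
  have hl1 := par_l1 P
  have hl0 := P.l0
  have hW0 : 0 < W := by linarith
  obtain ⟨c, hc0, hc1, d, hd⟩ := exists_diff_mono (κ := Fin (M + 2))
    (f := fun j => Pool.Agent.Helper84.KR.An s R j) (fun j => Pool.Agent.Helper84.KR.An_mono s R j)
    (div_pos P.l0 hW0)
  rw [lt_div_iff₀ hW0] at hc1
  have hWc : W * c < P.l := by linarith
  have hcl : c < P.l := by nlinarith
  have htot := hW c hc0.le hcl
  -- the total is differentiable
  have hder : HasDerivAt (fun c => tot s R c) W c := by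
    have h3 : HasDerivAt (fun b : ℝ => W * b) W c := by
      simpa using (hasDerivAt_id c).const_mul W
    refine h3.congr_of_eventuallyEq ?_
    filter_upwards [Ioo_mem_nhds hc0 hcl] with b hb
    exact hW b hb.1.le hb.2
  -- the exponents of the coordinates
  have hlm : ∀ j, lmd s R c j ≤ W * c := by
    intro j
    have h3 : num s R (Nat.succ_le_of_lt j.2) c ≤ tot s R c := by
      rw [num_An, tot_An]
      exact Pool.Agent.Helper84.KR.An_le s R (Nat.succ_le_of_lt j.2) le_rfl c
    have h4 : 0 ≤ num s R j.2.le c := by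
      rw [num_An]
      exact Pool.Agent.Helper84.KR.An_nonneg s R _ c
    unfold lmd
    linarith
  obtain ⟨S', t, R', h5, h6⟩ := hC A C v hc m (gd gb r e0 P) r e0 P.l (P.La + 1) P S s R hk.bk c W
    (fun j => if h : j < M + 2 then d ⟨j, h⟩ else 0) Set.univ hc0 hcl (hcl.trans hl1)
    ⟨1 - tot s R c, by rw [htot]; linarith, hG A C v hc m (gd gb r e0 P) r e0 P.l S s R hk.bk c (1 - tot s R c) hc0.le
      hcl (hcl.trans hl1) (by rw [htot]; linarith) (by linarith)⟩ (by rw [htot]; nlinarith)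
    (hT A C v hc m (gd gb r e0 P) r e0 P.l S s R hk.bk P.ρ P.d P.d P.La (par_d0 P) (par_d1 P).le
      (by linarith [P.La1]) (par_Ld P) hk.top c hc0 hcl (hcl.trans hl1)
      ((hlm _).trans_lt (hWc.trans_le (par_ld P))) W h2 hder) hder h2
    (fun j _ hj => by
      have h7 : (fun c => num s R hj c) = Pool.Agent.Helper84.KR.An s R j := funext fun c => num_An s R hj c
      rw [h7, dif_pos (Nat.lt_succ_of_le hj)]
      exact hd ⟨j, Nat.lt_succ_of_le hj⟩)
  refine ⟨_, spd_of h5.bk.cl.2.1 P.l0 fun b hb0 hb => ⟨(h6 b hb0 hb).1, fun j hj => (h6 b hb0 hb).2 j trivial hj⟩,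
    S', t, R', h5, fun b hb0 hb j hj => (h6 b hb0 hb).2 j trivial hj⟩

end

end Pool.Agent.Helper22.OC
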